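import Mathlib

namespace Pool.Agent.Bal36

def cov (x1 x2 x3 y1 y2 y3 j : ℕ) : Bool :=
  [0, x1, x2, x3, 10].any fun x => [0, y1, y2, y3, 10].any fun y => Nat.beq (x + y) j

def full (x1 x2 x3 y1 y2 y3 : ℕ) : Bool :=
  [1, 19, 2, 18, 3, 17, 4, 16, 5, 15, 6, 14, 7, 13, 8, 12, 9, 11, 10].all
    (cov x1 x2 x3 y1 y2 y3)

def chk : Bool :=
  (List.range 10).all fun x3 => (List.range x3).all fun x2 => (List.range x2).all fun x1 =>
  (List.range 10).all fun y3 => (List.range y3).all fun y2 => (List.range y2).all fun y1 =>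
    !(full x1 x2 x3 y1 y2 y3)

theorem chk_true : chk = true := by decide +kernel

theorem not_full {x1 x2 x3 y1 y2 y3 : ℕ} (h1 : x1 < x2) (h2 : x2 < x3) (h3 : x3 < 10)
    (k1 : y1 < y2) (k2 : y2 < y3) (k3 : y3 < 10) : full x1 x2 x3 y1 y2 y3 = false := by
  have h := chk_true
  unfold chk at h
  rw [List.all_eq_true] at h
  have a1 := h x3 (List.mem_range.2 h3)
  rw [List.all_eq_true] at a1
  have a2 := a1 x2 (List.mem_range.2 h2)
  rw [List.all_eq_true] at a2
  have a3 := a2 x1 (List.mem_range.2 h1)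
  rw [List.all_eq_true] at a3
  have a4 := a3 y3 (List.mem_range.2 k3)
  rw [List.all_eq_true] at a4
  have a5 := a4 y2 (List.mem_range.2 k2)
  rw [List.all_eq_true] at a5
  have a6 := a5 y1 (List.mem_range.2 k1)
  simpa using a6

end Pool.Agent.Bal36
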