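import Mathlib

namespace Pool.Agent.Bal36

open Finset

/-- `X` and `Y` are subsets of `{0, …, n - 1}` with sumset `{0, …, 2 n - 2}`. -/
def Cover (n : ℕ) (X Y : Finset ℕ) : Prop :=
  X ⊆ range n ∧ Y ⊆ range n ∧ ∀ j < 2 * n - 1, ∃ x ∈ X, ∃ y ∈ Y, x + y = j

theorem cover_two (n : ℕ) (hn : 0 < n) : Cover n (range n) {0, n - 1} := by
  refine ⟨Subset.refl _, ?_, ?_⟩
  · intro y hy
    simp only [Finset.mem_insert, Finset.mem_singleton] at hy
    rw [Finset.mem_range]
    omega
  · intro j hj
    by_cases h : j < n
    · exact ⟨j, Finset.mem_range.2 h, 0, by simp, by omega⟩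
    · exact ⟨j - (n - 1), Finset.mem_range.2 (by omega), n - 1, by simp, by omega⟩

theorem cover_blocks {n k m : ℕ} (hn : 0 < n) (hm : 0 < m) (hmk : 2 * m ≤ k)
    (hnk : n ≤ m * (k - 1) + 1) :
    ∃ X Y : Finset ℕ, Cover n X Y ∧ X.card ≤ k ∧ Y.card ≤ k := by
  refine ⟨(range n).filter (fun x => x < m ∨ n ≤ x + m),
    (range k).image (fun i => min (i * m) (n - 1)), ⟨Finset.filter_subset _ _, ?_, ?_⟩, ?_, ?_⟩
  · intro y hy
    obtain ⟨i, -, rfl⟩ := Finset.mem_image.1 hy
    rw [Finset.mem_range]
    omega
  · intro j hj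
    by_cases h : j < n
    · have hdiv := Nat.div_add_mod j m
      have hmod := Nat.mod_lt j hm
      have hi : j / m < k := by
        have h1 : j / m ≤ k - 1 := by
          apply Nat.le_of_mul_le_mul_left _ hm
          calc m * (j / m) ≤ j := Nat.mul_div_le j m
            _ ≤ m * (k - 1) := by omega
        omega
      have hle : j / m * m ≤ j := Nat.div_mul_le_self j m
      refine ⟨j % m, ?_, min (j / m * m) (n - 1), Finset.mem_image.2 ⟨j / m, Finset.mem_range.2 hi,
        rfl⟩, ?_⟩
      · rw [Finset.mem_filter, Finset.mem_range]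
        exact ⟨lt_of_le_of_lt (Nat.mod_le j m) h, Or.inl hmod⟩
      · rw [Nat.min_eq_left (by omega), mul_comm (j / m) m]
        omega
    · set t := j - (n - 1) with ht
      set i := (t + m - 1) / m with hi
      have h1 : t ≤ i * m := by
        have h3 := Nat.div_add_mod (t + m - 1) m
        have h4 := Nat.mod_lt (t + m - 1) hm
        rw [← hi] at h3
        rw [mul_comm i m]
        omega
      have h2 : i * m ≤ t + m - 1 := Nat.div_mul_le_self _ _
      have hik : i < k := by
        have h3 : i < k - 1 + 1 := by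
          apply Nat.lt_of_mul_lt_mul_left (a := m)
          rw [mul_add, mul_one]
          rw [mul_comm i m] at h2
          omega
        omega
      refine ⟨n - 1 - (min (i * m) (n - 1) - t), ?_, min (i * m) (n - 1), Finset.mem_image.2
        ⟨i, Finset.mem_range.2 hik, rfl⟩, ?_⟩
      · rw [Finset.mem_filter, Finset.mem_range]
        omega
      · omega
  · calc ((range n).filter (fun x => x < m ∨ n ≤ x + m)).card
        ≤ (range m ∪ Ico (n - m) n).card := by
          apply Finset.card_le_card
          intro x hx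
          rw [Finset.mem_filter, Finset.mem_range] at hx
          rw [Finset.mem_union, Finset.mem_range, Finset.mem_Ico]
          omega
      _ ≤ (range m).card + (Ico (n - m) n).card := Finset.card_union_le _ _
      _ ≤ k := by
          rw [Finset.card_range, Nat.card_Ico]
          omega
  · exact Finset.card_image_le.trans (by simp)

theorem cover_four : Cover 4 {0, 1, 3} {0, 2, 3} := by
  unfold Cover
  decide +kernel

theorem cover_ten : Cover 10 {0, 1, 2, 6, 9} {0, 3, 7, 8, 9} := by
  unfold Cover
  decide +kernel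

/-- In `{0, …, n - 1}` there are two sets with at most `√(36 n / 11)` elements and sumset
`{0, …, 2 n - 2}`. -/
theorem exists_cover {n k : ℕ} (hn : 0 < n) (h1 : 11 * k ^ 2 ≤ 36 * n)
    (h2 : 36 * n < 11 * (k + 1) ^ 2) :
    ∃ X Y : Finset ℕ, Cover n X Y ∧ X.card ≤ k ∧ Y.card ≤ k := by
  by_cases hk : k ≤ 1
  · have hn1 : n = 1 := by
      have : (k + 1) ^ 2 ≤ 2 ^ 2 := Nat.pow_le_pow_left (by omega) 2
      omega
    subst hn1
    have hk1 : k = 1 := by
      by_contra hne
      have : k = 0 := by omega
      subst this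
      omega
    subst hk1
    refine ⟨{0}, {0}, ⟨by simp, by simp, fun j hj => ⟨0, by simp, 0, by simp, by omega⟩⟩, by simp,
      by simp⟩
  rcases Nat.even_or_odd' k with ⟨m, hm | hm⟩
  · subst hm
    refine cover_blocks hn (m := m) (by omega) le_rfl ?_
    by_contra hcon
    push Not at hcon
    obtain ⟨r, rfl⟩ : ∃ r, m = r + 1 := ⟨m - 1, by omega⟩
    have e : 2 * (r + 1) - 1 = 2 * r + 1 := by omega
    rw [e] at hcon
    nlinarith [sq_nonneg ((7 : ℤ) * (r + 1) - 10)]
  · subst hm
    have hm1 : 1 ≤ m := by omega
    by_cases hs : n ≤ m * (2 * m + 1 - 1) + 1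
    · exact cover_blocks hn (by omega) (by omega) hs
    · push Not at hs
      have e : 2 * m + 1 - 1 = 2 * m := by omega
      rw [e] at hs
      have hm3 : m < 3 := by
        by_contra hge
        push Not at hge
        obtain ⟨r, rfl⟩ : ∃ r, m = r + 3 := ⟨m - 3, by omega⟩
        nlinarith
      interval_cases m
      · have : n = 4 := by omega
        subst this
        exact ⟨_, _, cover_four, by decide, by decide⟩
      · have : n = 10 := by omega
        subst this
        exact ⟨_, _, cover_ten, by decide, by decide⟩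

end Pool.Agent.Bal36
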