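import Mathlib

/-!
# Small sets in `ZMod p` are contained in short progressions with a common difference

If `16 ^ n < p` then two sets `A`, `B` of `n` elements are contained in two arithmetic progressions
with the same difference, whose lengths have a sum of at most `p + 1`.
-/

namespace Pool.Agent.Bal36

open Finset

/-- One set: if the functions `x ↦ ⌊4 t (x - a) / p⌋` and `x ↦ ⌊4 u (x - a) / p⌋` agree on `S`, then
`S` is contained in a short progression with the difference `(t - u)⁻¹`. -/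
theorem short_of_eq {p : ℕ} [Fact p.Prime] {S : Finset (ZMod p)} {a t u : ZMod p} (htu : t ≠ u)
    (h : ∀ x ∈ S, 4 * (t * (x - a)).val / p = 4 * (u * (x - a)).val / p) :
    S ⊆ (range (2 * ((p - 1) / 4) + 1)).image
      (fun i : ℕ => (a - ((p - 1) / 4 : ℕ) * (t - u)⁻¹) + i * (t - u)⁻¹) := by
  intro x hx
  have hp : 0 < p := (Fact.out : p.Prime).pos
  have : NeZero p := ⟨hp.ne'⟩
  have h1 := h x hx
  obtain ⟨v, hv⟩ : ∃ v, v = (t * (x - a)).val := ⟨_, rfl⟩
  obtain ⟨w, hw⟩ : ∃ w, w = (u * (x - a)).val := ⟨_, rfl⟩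
  rw [← hv, ← hw] at h1
  obtain ⟨k, hk⟩ : ∃ k, k = 4 * v / p := ⟨_, rfl⟩
  have a1 : k * p ≤ 4 * v := by rw [hk]; exact Nat.div_mul_le_self _ _
  have a2 : 4 * v < (k + 1) * p := by
    rw [hk]
    have := Nat.lt_mul_div_succ (4 * v) hp
    rwa [mul_comm p] at this
  have b1 : k * p ≤ 4 * w := by rw [hk, h1]; exact Nat.div_mul_le_self _ _
  have b2 : 4 * w < (k + 1) * p := by
    rw [hk, h1]
    have := Nat.lt_mul_div_succ (4 * w) hp
    rwa [mul_comm p] at this
  rw [add_mul, one_mul] at a2 b2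
  obtain ⟨m, hm⟩ : ∃ m, m = (p - 1) / 4 := ⟨_, rfl⟩
  have c1 : w ≤ v + m := by omega
  have c2 : v ≤ w + m := by omega
  rw [← hm, mem_image]
  refine ⟨v + m - w, ?_, ?_⟩
  · rw [mem_range]; omega
  · have hd : t - u ≠ 0 := sub_ne_zero.2 htu
    have e1 : (v : ZMod p) = t * (x - a) := by rw [hv, ZMod.natCast_zmod_val]
    have e2 : (w : ZMod p) = u * (x - a) := by rw [hw, ZMod.natCast_zmod_val]
    rw [Nat.cast_sub c1, Nat.cast_add, e1, e2]
    have e3 : t * (x - a) + (m : ZMod p) - u * (x - a) = (t - u) * (x - a) + m := by ring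
    rw [e3]
    field_simp
    ring

theorem small_short {p n : ℕ} [Fact p.Prime] (hn : 0 < n) (h : 16 ^ n < p)
    {A B : Finset (ZMod p)} (hA : A.card = n) (hB : B.card = n) :
    ∃ (a b d : ZMod p) (L M : ℕ), d ≠ 0 ∧ L + M ≤ p + 1 ∧
      A ⊆ (range L).image (fun i : ℕ => a + i * d) ∧
      B ⊆ (range M).image (fun i : ℕ => b + i * d) := by
  classical
  have hp : 0 < p := (Fact.out : p.Prime).pos
  have : NeZero p := ⟨hp.ne'⟩
  obtain ⟨a0, -⟩ : A.Nonempty := card_pos.1 (by omega)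
  obtain ⟨b0, -⟩ : B.Nonempty := card_pos.1 (by omega)
  have key : ∀ (t x a : ZMod p), 4 * (t * (x - a)).val / p < 4 := by
    intro t x a
    rw [Nat.div_lt_iff_lt_mul hp]
    have := ZMod.val_lt (t * (x - a))
    omega
  let f : ZMod p → (A ⊕ B → Fin 4) := fun t s =>
    Sum.elim (fun x : A => (⟨4 * (t * ((x : ZMod p) - a0)).val / p, key t x a0⟩ : Fin 4))
      (fun y : B => (⟨4 * (t * ((y : ZMod p) - b0)).val / p, key t y b0⟩ : Fin 4)) s
  have hcard : Fintype.card (A ⊕ B → Fin 4) < Fintype.card (ZMod p) := by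
    rw [ZMod.card, Fintype.card_fun, Fintype.card_fin, Fintype.card_sum, Fintype.card_coe,
      Fintype.card_coe, hA, hB, ← two_mul, pow_mul]
    exact h
  obtain ⟨t, u, htu, hf⟩ := Fintype.exists_ne_map_eq_of_card_lt f hcard
  refine ⟨a0 - ((p - 1) / 4 : ℕ) * (t - u)⁻¹, b0 - ((p - 1) / 4 : ℕ) * (t - u)⁻¹, (t - u)⁻¹,
    2 * ((p - 1) / 4) + 1, 2 * ((p - 1) / 4) + 1, inv_ne_zero (sub_ne_zero.2 htu), by omega, ?_, ?_⟩
  · refine short_of_eq htu fun x hx => ?_
    have := congrFun hf (Sum.inl ⟨x, hx⟩)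
    exact congrArg Fin.val this
  · refine short_of_eq htu fun x hx => ?_
    have := congrFun hf (Sum.inr ⟨x, hx⟩)
    exact congrArg Fin.val this

end Pool.Agent.Bal36
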