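import Pool.Agent.Bal36.Chk

namespace Pool.Agent.Bal36

open Finset

theorem sort3 {x y z : ℕ} (h1 : x ≠ y) (h2 : x ≠ z) (h3 : y ≠ z) (hx : x < 10) (hy : y < 10)
    (hz : z < 10) : ∃ a b c : ℕ, a < b ∧ b < c ∧ c < 10 ∧
      ∀ w, (w = x ∨ w = y ∨ w = z) → (w = a ∨ w = b ∨ w = c) := by
  rcases lt_or_gt_of_ne h1 with h1 | h1 <;> rcases lt_or_gt_of_ne h2 with h2 | h2 <;>
    rcases lt_or_gt_of_ne h3 with h3 | h3
  · exact ⟨x, y, z, by omega, by omega, by omega, by omega⟩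
  · exact ⟨x, z, y, by omega, by omega, by omega, by omega⟩
  · omega
  · exact ⟨z, x, y, by omega, by omega, by omega, by omega⟩
  · exact ⟨y, x, z, by omega, by omega, by omega, by omega⟩
  · omega
  · exact ⟨y, z, x, by omega, by omega, by omega, by omega⟩
  · exact ⟨z, y, x, by omega, by omega, by omega, by omega⟩

theorem shape {X : Finset ℕ} (hX : X ⊆ range 11) (cX : X.card ≤ 5) (h0 : 0 ∈ X) (h10 : 10 ∈ X) :
    ∃ a b c : ℕ, a < b ∧ b < c ∧ c < 10 ∧ ∀ w ∈ X, w ∈ [0, a, b, c, 10] := by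
  obtain ⟨U, hXU, hU, cU⟩ := Finset.exists_subsuperset_card_eq hX cX (by simp)
  have c3 : ((U.erase 0).erase 10).card = 3 := by
    rw [Finset.card_erase_of_mem, Finset.card_erase_of_mem (hXU h0), cU]
    exact Finset.mem_erase.2 ⟨by norm_num, hXU h10⟩
  obtain ⟨x, y, z, hxy, hxz, hyz, hZ⟩ := Finset.card_eq_three.1 c3
  have hlt : ∀ w ∈ (U.erase 0).erase 10, w < 10 := by
    intro w hw
    rw [Finset.mem_erase, Finset.mem_erase] at hw
    have := Finset.mem_range.1 (hU hw.2.2)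
    omega
  have hx : x < 10 := hlt x (by rw [hZ]; simp)
  have hy : y < 10 := hlt y (by rw [hZ]; simp)
  have hz : z < 10 := hlt z (by rw [hZ]; simp)
  obtain ⟨a, b, c, hab, hbc, hc, h⟩ := sort3 hxy hxz hyz hx hy hz
  refine ⟨a, b, c, hab, hbc, hc, fun w hw => ?_⟩
  by_cases w0 : w = 0
  · simp [w0]
  by_cases w10 : w = 10
  · simp [w10]
  have hw' : w ∈ (U.erase 0).erase 10 :=
    Finset.mem_erase.2 ⟨w10, Finset.mem_erase.2 ⟨w0, hXU hw⟩⟩
  rw [hZ] at hw'
  simp only [Finset.mem_insert, Finset.mem_singleton] at hw'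
  have := h w hw'
  simp only [List.mem_cons, List.not_mem_nil, or_false]
  tauto

/-- No two subsets of `{0, …, 10}` with at most five elements have all of `{0, …, 20}` as their
sums. -/
theorem no_cover {X Y : Finset ℕ} (hX : X ⊆ range 11) (hY : Y ⊆ range 11) (cX : X.card ≤ 5)
    (cY : Y.card ≤ 5) (h : ∀ j < 21, ∃ x ∈ X, ∃ y ∈ Y, x + y = j) : False := by
  obtain ⟨x, hx, y, hy, hxy⟩ := h 0 (by norm_num)
  obtain ⟨x', hx', y', hy', hxy'⟩ := h 20 (by norm_num)
  have e1 : x = 0 := by omega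
  have e2 : y = 0 := by omega
  have b1 := Finset.mem_range.1 (hX hx')
  have b2 := Finset.mem_range.1 (hY hy')
  have e3 : x' = 10 := by omega
  have e4 : y' = 10 := by omega
  subst e1 e2 e3 e4
  obtain ⟨x1, x2, x3, h1, h2, h3, HX⟩ := shape hX cX hx hx'
  obtain ⟨y1, y2, y3, k1, k2, k3, HY⟩ := shape hY cY hy hy'
  have hf := not_full h1 h2 h3 k1 k2 k3
  have ht : full x1 x2 x3 y1 y2 y3 = true := by
    unfold full
    rw [List.all_eq_true]
    intro j hj
    have hj21 : j < 21 := by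
      simp only [List.mem_cons, List.not_mem_nil, or_false] at hj
      omega
    obtain ⟨u, hu, v, hv, huv⟩ := h j hj21
    unfold cov
    rw [List.any_eq_true]
    refine ⟨u, HX u hu, ?_⟩
    rw [List.any_eq_true]
    exact ⟨v, HY v hv, by rw [huv]; exact Nat.beq_refl j⟩
  rw [hf] at ht
  exact Bool.noConfusion ht

end Pool.Agent.Bal36
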