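import Pool.Agent.Bal36.Up

namespace Pool.Agent.Bal36

open Finset
open scoped Pointwise

/-- For `p ≥ 21`, two subsets of `{0, …, 10}` in `Z_p` with at most five elements have at most
20 sums. -/
theorem lowP {p : ℕ} (hp : 21 ≤ p) {A B : Finset (ZMod p)}
    (hA : A ⊆ (range 11).image (fun i : ℕ => (i : ZMod p)))
    (hB : B ⊆ (range 11).image (fun i : ℕ => (i : ZMod p))) (cA : A.card ≤ 5)
    (cB : B.card ≤ 5) (h : 21 ≤ (A + B).card) : False := by
  have key : ∀ C : Finset (ZMod p), C.card ≤ 5 →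
      ((range 11).filter (fun i : ℕ => (i : ZMod p) ∈ C)).card ≤ 5 := by
    intro C hC
    refine le_trans ?_ hC
    apply Finset.card_le_card_of_injOn (fun i : ℕ => (i : ZMod p))
    · intro i hi
      exact (Finset.mem_filter.1 hi).2
    · intro i hi j hj hij
      have h1 := Finset.mem_range.1 (Finset.mem_filter.1 hi).1
      have h2 := Finset.mem_range.1 (Finset.mem_filter.1 hj).1
      exact cast_inj (p := p) (by omega) (by omega) hij
  have sub : A + B ⊆ (range 21).image (fun i : ℕ => (i : ZMod p)) := by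
    intro z hz
    obtain ⟨x, hx, y, hy, rfl⟩ := Finset.mem_add.1 hz
    obtain ⟨i, hi, rfl⟩ := Finset.mem_image.1 (hA hx)
    obtain ⟨j, hj, rfl⟩ := Finset.mem_image.1 (hB hy)
    rw [Finset.mem_range] at hi hj
    exact Finset.mem_image.2 ⟨i + j, Finset.mem_range.2 (by omega), by push_cast; rfl⟩
  have eq : A + B = (range 21).image (fun i : ℕ => (i : ZMod p)) := by
    apply Finset.eq_of_subset_of_card_le sub
    exact Finset.card_image_le.trans (by simpa using h)
  refine no_cover (X := (range 11).filter (fun i : ℕ => (i : ZMod p) ∈ A))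
    (Y := (range 11).filter (fun i : ℕ => (i : ZMod p) ∈ B)) (Finset.filter_subset _ _)
    (Finset.filter_subset _ _) (key A cA) (key B cB) ?_
  intro j hj
  have hz : (j : ZMod p) ∈ A + B := by
    rw [eq]
    exact Finset.mem_image.2 ⟨j, Finset.mem_range.2 hj, rfl⟩
  obtain ⟨x, hx, y, hy, hxy⟩ := Finset.mem_add.1 hz
  obtain ⟨i, hi, rfl⟩ := Finset.mem_image.1 (hA hx)
  obtain ⟨i', hi', rfl⟩ := Finset.mem_image.1 (hB hy)
  refine ⟨i, Finset.mem_filter.2 ⟨hi, hx⟩, i', Finset.mem_filter.2 ⟨hi', hy⟩, ?_⟩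
  rw [Finset.mem_range] at hi hi'
  apply cast_inj (p := p) (by omega) (by omega)
  push_cast
  exact hxy

end Pool.Agent.Bal36
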