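import Mathlib

namespace Pool.Agent.Bal36

open Finset
open scoped Pointwise

/-- In `A`, the elements `t` with `t + m ∉ A` represent all residue classes. -/
theorem tops {A : Finset ℤ} {m : ℤ} (hm : 0 < m) :
    (A.image (fun a => a % m)).card ≤ (A.filter (fun a => a + m ∉ A)).card := by
  have h : A.image (fun a => a % m) ⊆ (A.filter (fun a => a + m ∉ A)).image (fun a => a % m) := by
    intro r hr
    obtain ⟨a, ha, rfl⟩ := Finset.mem_image.1 hr
    have hne : (A.filter (fun x => x % m = a % m)).Nonempty := ⟨a, Finset.mem_filter.2 ⟨ha, rfl⟩⟩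
    have hmax := Finset.max'_mem _ hne
    set t := (A.filter (fun x => x % m = a % m)).max' hne with ht
    rw [Finset.mem_filter] at hmax
    refine Finset.mem_image.2 ⟨t, Finset.mem_filter.2 ⟨hmax.1, fun hcon => ?_⟩, hmax.2⟩
    have h1 : t + m ∈ A.filter (fun x => x % m = a % m) :=
      Finset.mem_filter.2 ⟨hcon, by rw [Int.add_emod_right]; exact hmax.2⟩
    have h2 := Finset.le_max' _ _ h1
    rw [← ht] at h2
    omega
  exact (Finset.card_le_card h).trans Finset.card_image_le

/-- The number of the sums with three elements of `B`. -/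
theorem union_bound {A : Finset ℤ} {b0 M b : ℤ} :
    A.card + (A.filter (fun a => a + (M - b0) ∉ A)).card +
      (A.filter (fun a => a + b - b0 ∉ A ∧ a + b - M ∉ A)).card ≤ (A + {b0, M, b}).card := by
  set T := A.filter (fun a => a + (M - b0) ∉ A) with hT
  set N := A.filter (fun a => a + b - b0 ∉ A ∧ a + b - M ∉ A) with hN
  have i1 : Function.Injective (fun a : ℤ => a + b0) := add_left_injective b0
  have i2 : Function.Injective (fun a : ℤ => a + M) := add_left_injective M
  have i3 : Function.Injective (fun a : ℤ => a + b) := add_left_injective b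
  have d1 : Disjoint (A.image (fun a => a + b0)) (T.image (fun a => a + M)) := by
    rw [Finset.disjoint_left]
    intro z hz hz'
    obtain ⟨x, hx, rfl⟩ := Finset.mem_image.1 hz
    obtain ⟨y, hy, hxy⟩ := Finset.mem_image.1 hz'
    have h := (Finset.mem_filter.1 hy).2
    apply h
    have : y + (M - b0) = x := by
      have : y + M = x + b0 := hxy
      omega
    rw [this]
    exact hx
  have d2 : Disjoint (A.image (fun a => a + b0) ∪ T.image (fun a => a + M))
      (N.image (fun a => a + b)) := by
    rw [Finset.disjoint_left]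
    intro z hz hz'
    obtain ⟨y, hy, rfl⟩ := Finset.mem_image.1 hz'
    have h := (Finset.mem_filter.1 hy).2
    rcases Finset.mem_union.1 hz with hz | hz
    · obtain ⟨x, hx, hxy⟩ := Finset.mem_image.1 hz
      apply h.1
      have : y + b - b0 = x := by
        have : x + b0 = y + b := hxy
        omega
      rw [this]
      exact hx
    · obtain ⟨x, hx, hxy⟩ := Finset.mem_image.1 hz
      apply h.2
      have : y + b - M = x := by
        have : x + M = y + b := hxy
        omega
      rw [this]
      exact (Finset.mem_filter.1 hx).1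
  have sub : (A.image (fun a => a + b0) ∪ T.image (fun a => a + M)) ∪ N.image (fun a => a + b) ⊆
      A + {b0, M, b} := by
    intro z hz
    rw [Finset.mem_add]
    rcases Finset.mem_union.1 hz with hz | hz
    · rcases Finset.mem_union.1 hz with hz | hz
      · obtain ⟨x, hx, rfl⟩ := Finset.mem_image.1 hz
        exact ⟨x, hx, b0, by simp, rfl⟩
      · obtain ⟨x, hx, rfl⟩ := Finset.mem_image.1 hz
        exact ⟨x, (Finset.mem_filter.1 hx).1, M, by simp, rfl⟩
    · obtain ⟨x, hx, rfl⟩ := Finset.mem_image.1 hz
      exact ⟨x, (Finset.mem_filter.1 hx).1, b, by simp, rfl⟩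
  have hc := Finset.card_le_card sub
  rw [Finset.card_union_of_disjoint d2, Finset.card_union_of_disjoint d1,
    Finset.card_image_of_injective _ i1, Finset.card_image_of_injective _ i2,
    Finset.card_image_of_injective _ i3] at hc
  exact hc

/-- For a fixed `a`, few `b` give old sums. -/
theorem few_old {A C : Finset ℤ} {b0 m : ℤ} (hm : 0 < m) (hC : ∀ b ∈ C, b0 ≤ b ∧ b < b0 + m)
    (a : ℤ) : (C.filter (fun b => ¬ (a + b - b0 ∉ A ∧ a + b - (b0 + m) ∉ A))).card ≤
      (A.image (fun a => a % m)).card := by
  apply Finset.card_le_card_of_injOn (fun b => (a + b - b0) % m)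
  · intro b hb
    obtain ⟨-, hb⟩ := Finset.mem_filter.1 hb
    rw [Finset.mem_coe, Finset.mem_image]
    by_cases h : a + b - b0 ∈ A
    · exact ⟨_, h, rfl⟩
    · have h' : a + b - (b0 + m) ∈ A := by tauto
      refine ⟨_, h', ?_⟩
      have : a + b - b0 = a + b - (b0 + m) + m := by ring
      show (a + b - (b0 + m)) % m = (a + b - b0) % m
      rw [this, Int.add_emod_right]
  · intro b hb b' hb' h
    have h1 := hC b (Finset.mem_filter.1 hb).1
    have h2 := hC b' (Finset.mem_filter.1 hb').1
    have h3 : (a + b - b0) % m = (a + b' - b0) % m := h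
    have h4 := Int.emod_emod_of_dvd (a + b - b0) (dvd_refl m)
    have h5 : m ∣ (a + b - b0) - (a + b' - b0) := Int.ModEq.dvd (show (a + b' - b0) ≡
      (a + b - b0) [ZMOD m] from h3.symm)
    obtain ⟨q, hq⟩ := h5
    have h6 : b - b' = m * q := by linarith
    have h7 : q = 0 := by
      by_contra hne
      rcases lt_or_gt_of_ne hne with hlt | hgt
      · nlinarith
      · nlinarith
    rw [h7] at h6
    omega

/-- **Three translates**: for sets of integers with `|B| ≤ |A| + 1` there are at most three
elements of `B` whose sums with `A` number at least `|A| + |B| - 1`. -/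
theorem three {A B : Finset ℤ} (hB : B.Nonempty) (hc : B.card ≤ A.card + 1) :
    ∃ B' ⊆ B, B'.card ≤ 3 ∧ A.card + B.card ≤ (A + B').card + 1 := by
  set b0 := B.min' hB with hb0
  set M := B.max' hB with hM
  have mb0 : b0 ∈ B := Finset.min'_mem _ _
  have mM : M ∈ B := Finset.max'_mem _ _
  have hle : b0 ≤ M := Finset.min'_le _ _ mM
  by_cases hm0 : b0 = M
  · refine ⟨{b0}, by simpa using mb0, by simp, ?_⟩
    have hB1 : B.card ≤ 1 := by
      rw [Finset.card_le_one]
      intro x hx y hy
      have h1 := Finset.min'_le B x hx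
      have h2 := Finset.le_max' B x hx
      have h3 := Finset.min'_le B y hy
      have h4 := Finset.le_max' B y hy
      rw [← hb0] at h1 h3
      rw [← hM] at h2 h4
      omega
    have : (A + {b0}).card = A.card := Finset.card_add_singleton A b0
    omega
  have hm : 0 < M - b0 := by omega
  set s := (A.image (fun a => a % (M - b0))).card with hs
  have hT := tops (A := A) hm
  rw [← hs] at hT
  set C := B.erase M with hC
  have cC : C.card + 1 = B.card := by
    rw [hC, Finset.card_erase_of_mem mM]
    have := Finset.card_pos.2 hB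
    omega
  have hCb : ∀ b ∈ C, b0 ≤ b ∧ b < b0 + (M - b0) := by
    intro b hb
    rw [hC, Finset.mem_erase] at hb
    have h1 := Finset.min'_le B b hb.2
    have h2 := Finset.le_max' B b hb.2
    rw [← hb0] at h1
    rw [← hM] at h2
    have h3 := hb.1
    omega
  have key : ∃ b ∈ C, C.card ≤ s +
      (A.filter (fun a => a + b - b0 ∉ A ∧ a + b - M ∉ A)).card := by
    by_contra hcon
    push Not at hcon
    have hCpos : 0 < C.card := Finset.card_pos.2 ⟨b0, by
      rw [hC, Finset.mem_erase]
      exact ⟨hm0, mb0⟩⟩
    have h1 : ∑ b ∈ C, (s + (A.filter (fun a => a + b - b0 ∉ A ∧ a + b - M ∉ A)).card) <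
        ∑ _b ∈ C, C.card := Finset.sum_lt_sum_of_nonempty (Finset.card_pos.1 hCpos) hcon
    rw [Finset.sum_add_distrib, Finset.sum_const, Finset.sum_const, smul_eq_mul, smul_eq_mul] at h1
    have h2 : ∑ b ∈ C, (A.filter (fun a => a + b - b0 ∉ A ∧ a + b - M ∉ A)).card =
        ∑ a ∈ A, (C.filter (fun b => a + b - b0 ∉ A ∧ a + b - M ∉ A)).card := by
      simp only [Finset.card_filter]
      exact Finset.sum_comm
    have h3 : ∀ a ∈ A, C.card ≤
        s + (C.filter (fun b => a + b - b0 ∉ A ∧ a + b - M ∉ A)).card := by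
      intro a _
      have h4 := few_old (A := A) hm hCb a
      rw [← hs, add_sub_cancel] at h4
      have h5 := Finset.card_filter_add_card_filter_not (s := C)
        (fun b => a + b - b0 ∉ A ∧ a + b - M ∉ A)
      omega
    have h6 : ∑ _a ∈ A, C.card ≤
        ∑ a ∈ A, (s + (C.filter (fun b => a + b - b0 ∉ A ∧ a + b - M ∉ A)).card) :=
      Finset.sum_le_sum h3
    rw [Finset.sum_add_distrib, Finset.sum_const, Finset.sum_const, smul_eq_mul, smul_eq_mul,
      ← h2] at h6
    have h7 : C.card ≤ A.card := by omega
    by_cases hsc : s ≤ C.card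
    · obtain ⟨e, he⟩ := Nat.exists_eq_add_of_le hsc
      obtain ⟨f, hf⟩ := Nat.exists_eq_add_of_le h7
      nlinarith
    · push Not at hsc
      have h9 := Nat.mul_le_mul_left C.card hsc.le
      omega
  obtain ⟨b, hbC, hb⟩ := key
  refine ⟨{b0, M, b}, ?_, Finset.card_le_three, ?_⟩
  · intro z hz
    simp only [Finset.mem_insert, Finset.mem_singleton] at hz
    rcases hz with rfl | rfl | rfl
    · exact mb0
    · exact mM
    · exact Finset.mem_of_mem_erase hbC
  · have := union_bound (A := A) (b0 := b0) (M := M) (b := b)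
    omega

end Pool.Agent.Bal36
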