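import Pool.Agent.Bal36.Cons
import Pool.Agent.Bal36.Low

namespace Pool.Agent.Bal36

open Finset
open scoped Pointwise

theorem cast_inj {p i j : ℕ} (hi : i < p) (hj : j < p) (h : (i : ZMod p) = (j : ZMod p)) :
    i = j := by
  rw [ZMod.natCast_eq_natCast_iff', Nat.mod_eq_of_lt hi, Nat.mod_eq_of_lt hj] at h
  exact h

theorem prog_inj {p : ℕ} [Fact p.Prime] (a : ZMod p) {d : ZMod p} (hd : d ≠ 0) {n : ℕ}
    (hn : n ≤ p) : Set.InjOn (fun i : ℕ => a + i * d) (range n : Finset ℕ) := by
  intro i hi j hj hij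
  rw [Finset.mem_coe, Finset.mem_range] at hi hj
  have h1 : (i : ZMod p) * d = j * d := add_left_cancel hij
  exact cast_inj (by omega) (by omega) (mul_right_cancel₀ hd h1)

theorem card_prog {p : ℕ} [Fact p.Prime] (a : ZMod p) {d : ZMod p} (hd : d ≠ 0) {n : ℕ}
    (hn : n ≤ p) : ((range n).image (fun i : ℕ => a + i * d)).card = n := by
  rw [Finset.card_image_of_injOn (prog_inj a hd hn), Finset.card_range]

/-- The sums of the terms of two progressions with indices in `X` and `Y`. -/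
theorem up {p n : ℕ} [Fact p.Prime] (hn : 0 < n) (h3 : 3 * n ≤ p) (a b : ZMod p) {d : ZMod p}
    (hd : d ≠ 0) {X Y : Finset ℕ} (hc : Cover n X Y) :
    2 * n - 1 ≤ (X.image (fun i : ℕ => a + i * d) + Y.image (fun i : ℕ => b + i * d)).card := by
  have h1 := card_prog (a + b) hd (n := 2 * n - 1) (by omega)
  rw [← h1]
  apply Finset.card_le_card
  intro z hz
  obtain ⟨j, hj, rfl⟩ := Finset.mem_image.1 hz
  obtain ⟨x, hx, y, hy, hxy⟩ := hc.2.2 j (Finset.mem_range.1 hj)
  rw [Finset.mem_add]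
  refine ⟨a + x * d, Finset.mem_image_of_mem _ hx, b + y * d, Finset.mem_image_of_mem _ hy, ?_⟩
  rw [← hxy]
  push_cast
  ring

/-- Two subsets of `{0, …, 10}` in `Z_37` with at most five elements have at most 20 sums. -/
theorem low {A B : Finset (ZMod 37)} (hA : A ⊆ (range 11).image (fun i : ℕ => (i : ZMod 37)))
    (hB : B ⊆ (range 11).image (fun i : ℕ => (i : ZMod 37))) (cA : A.card ≤ 5)
    (cB : B.card ≤ 5) (h : 21 ≤ (A + B).card) : False := by
  have key : ∀ C : Finset (ZMod 37), C.card ≤ 5 →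
      ((range 11).filter (fun i : ℕ => (i : ZMod 37) ∈ C)).card ≤ 5 := by
    intro C hC
    refine le_trans ?_ hC
    apply Finset.card_le_card_of_injOn (fun i : ℕ => (i : ZMod 37))
    · intro i hi
      exact (Finset.mem_filter.1 hi).2
    · intro i hi j hj hij
      have h1 := Finset.mem_range.1 (Finset.mem_filter.1 hi).1
      have h2 := Finset.mem_range.1 (Finset.mem_filter.1 hj).1
      exact cast_inj (p := 37) (by omega) (by omega) hij
  have sub : A + B ⊆ (range 21).image (fun i : ℕ => (i : ZMod 37)) := by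
    intro z hz
    obtain ⟨x, hx, y, hy, rfl⟩ := Finset.mem_add.1 hz
    obtain ⟨i, hi, rfl⟩ := Finset.mem_image.1 (hA hx)
    obtain ⟨j, hj, rfl⟩ := Finset.mem_image.1 (hB hy)
    rw [Finset.mem_range] at hi hj
    exact Finset.mem_image.2 ⟨i + j, Finset.mem_range.2 (by omega), by push_cast; rfl⟩
  have eq : A + B = (range 21).image (fun i : ℕ => (i : ZMod 37)) := by
    apply Finset.eq_of_subset_of_card_le sub
    exact Finset.card_image_le.trans (by simpa using h)
  refine no_cover (X := (range 11).filter (fun i : ℕ => (i : ZMod 37) ∈ A))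
    (Y := (range 11).filter (fun i : ℕ => (i : ZMod 37) ∈ B)) (Finset.filter_subset _ _)
    (Finset.filter_subset _ _) (key A cA) (key B cB) ?_
  intro j hj
  have hz : (j : ZMod 37) ∈ A + B := by
    rw [eq]
    exact Finset.mem_image.2 ⟨j, Finset.mem_range.2 hj, rfl⟩
  obtain ⟨x, hx, y, hy, hxy⟩ := Finset.mem_add.1 hz
  obtain ⟨i, hi, rfl⟩ := Finset.mem_image.1 (hA hx)
  obtain ⟨i', hi', rfl⟩ := Finset.mem_image.1 (hB hy)
  refine ⟨i, Finset.mem_filter.2 ⟨hi, hx⟩, i', Finset.mem_filter.2 ⟨hi', hy⟩, ?_⟩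
  rw [Finset.mem_range] at hi hi'
  apply cast_inj (p := 37) (by omega) (by omega)
  push_cast
  exact hxy

end Pool.Agent.Bal36
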