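import Pool.Agent.Bal36.Three
import Pool.Agent.Bal36.Up

namespace Pool.Agent.Bal36

open Finset
open scoped Pointwise

private theorem idx_card {p n : ℕ} [Fact p.Prime] {A : Finset (ZMod p)} (hA : A.card = n)
    {a d : ZMod p} {L : ℕ} (hd : d ≠ 0) (hL : L ≤ p)
    (h1 : A ⊆ (range L).image (fun i : ℕ => a + i * d)) :
    (((range L).filter (fun i : ℕ => a + i * d ∈ A)).image (Nat.cast : ℕ → ℤ)).card = n := by
  rw [Finset.card_image_of_injective _ Nat.cast_injective, ← hA]
  have h2 : ((range L).filter (fun i : ℕ => a + i * d ∈ A)).image (fun i : ℕ => a + i * d) = A := by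
    ext z
    constructor
    · intro hz
      obtain ⟨i, hi, rfl⟩ := Finset.mem_image.1 hz
      exact (Finset.mem_filter.1 hi).2
    · intro hz
      obtain ⟨i, hi, rfl⟩ := Finset.mem_image.1 (h1 hz)
      exact Finset.mem_image.2 ⟨i, Finset.mem_filter.2 ⟨hi, hz⟩, rfl⟩
  have h3 : Set.InjOn (fun i : ℕ => a + i * d)
      ((range L).filter (fun i : ℕ => a + i * d ∈ A) : Finset ℕ) :=
    (prog_inj a hd hL).mono (by
      intro i hi
      exact Finset.mem_coe.2 (Finset.mem_filter.1 hi).1)
  have h4 := Finset.card_image_of_injOn h3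
  rw [h2] at h4
  exact h4.symm

/-- If `A` and `B` lie in progressions with one common difference whose sum set does not wrap
around, then three elements of `B` are enough. -/
theorem short_three {p n : ℕ} [Fact p.Prime] (hn : 0 < n) {A B : Finset (ZMod p)}
    (hA : A.card = n) (hB : B.card = n) {a b d : ZMod p} {L M : ℕ} (hd : d ≠ 0)
    (hLM : L + M ≤ p + 1) (h1 : A ⊆ (range L).image (fun i : ℕ => a + i * d))
    (h2 : B ⊆ (range M).image (fun i : ℕ => b + i * d)) :
    ∃ B' ⊆ B, B'.card ≤ 3 ∧ 2 * n - 1 ≤ (A + B').card := by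
  have hL0 : n ≤ L := by
    have := (Finset.card_le_card h1).trans Finset.card_image_le
    rw [hA, Finset.card_range] at this
    exact this
  have hM0 : n ≤ M := by
    have := (Finset.card_le_card h2).trans Finset.card_image_le
    rw [hB, Finset.card_range] at this
    exact this
  have cX := idx_card hA hd (by omega) h1
  have cY := idx_card hB hd (by omega) h2
  set X := ((range L).filter (fun i : ℕ => a + i * d ∈ A)).image (Nat.cast : ℕ → ℤ) with hX
  set Y := ((range M).filter (fun i : ℕ => b + i * d ∈ B)).image (Nat.cast : ℕ → ℤ) with hY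
  have hYne : Y.Nonempty := Finset.card_pos.1 (by omega)
  obtain ⟨Y', hY', c3, hsum⟩ := three (A := X) (B := Y) hYne (by omega)
  refine ⟨Y'.image (fun z : ℤ => b + (z : ZMod p) * d), ?_, Finset.card_image_le.trans c3, ?_⟩
  · intro z hz
    obtain ⟨y, hy, rfl⟩ := Finset.mem_image.1 hz
    obtain ⟨j, hj, rfl⟩ := Finset.mem_image.1 (hY' hy)
    have := (Finset.mem_filter.1 hj).2
    simpa using this
  · have hle : (X + Y').card ≤ (A + Y'.image (fun z : ℤ => b + (z : ZMod p) * d)).card := by
      apply Finset.card_le_card_of_injOn (fun z : ℤ => (a + b) + (z : ZMod p) * d)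
      · intro z hz
        obtain ⟨x, hx, y, hy, rfl⟩ := Finset.mem_add.1 hz
        obtain ⟨i, hi, rfl⟩ := Finset.mem_image.1 hx
        rw [Finset.mem_coe, Finset.mem_add]
        refine ⟨a + (i : ZMod p) * d, (Finset.mem_filter.1 hi).2,
          b + (y : ZMod p) * d, Finset.mem_image_of_mem _ hy, ?_⟩
        show a + (i : ZMod p) * d + (b + (y : ZMod p) * d) =
          (a + b) + (((i : ℤ) + y : ℤ) : ZMod p) * d
        push_cast
        ring
      · intro z hz w hw hzw
        obtain ⟨x, hx, y, hy, rfl⟩ := Finset.mem_add.1 hz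
        obtain ⟨i, hi, rfl⟩ := Finset.mem_image.1 hx
        obtain ⟨j, hj, rfl⟩ := Finset.mem_image.1 (hY' hy)
        obtain ⟨x', hx', y', hy', rfl⟩ := Finset.mem_add.1 hw
        obtain ⟨i', hi', rfl⟩ := Finset.mem_image.1 hx'
        obtain ⟨j', hj', rfl⟩ := Finset.mem_image.1 (hY' hy')
        have l1 := Finset.mem_range.1 (Finset.mem_filter.1 hi).1
        have l2 := Finset.mem_range.1 (Finset.mem_filter.1 hj).1
        have l3 := Finset.mem_range.1 (Finset.mem_filter.1 hi').1
        have l4 := Finset.mem_range.1 (Finset.mem_filter.1 hj').1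
        have e1 : (((i : ℤ) + (j : ℤ) : ℤ) : ZMod p) * d = (((i' : ℤ) + (j' : ℤ) : ℤ) : ZMod p) * d :=
          add_left_cancel hzw
        have e2 := mul_right_cancel₀ hd e1
        have e3 : ((i + j : ℕ) : ZMod p) = ((i' + j' : ℕ) : ZMod p) := by
          push_cast at e2 ⊢
          exact e2
        have e4 := cast_inj (p := p) (by omega) (by omega) e3
        show (i : ℤ) + (j : ℤ) = (i' : ℤ) + (j' : ℤ)
        exact_mod_cast e4
    omega

end Pool.Agent.Bal36
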